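import Pool.Agent.H17.TE5

set_option autoImplicit false

namespace Pool.Agent.Results.MP_4f6efa_gt.NotExtral

theorem result (I : Type) (hI : Cardinal.mk I = Cardinal.aleph 1) :
    ∃ (Y : Type) (_ : TopologicalSpace Y) (_ : T35Space Y) (K : Set Y),
      Nonempty (K ≃ₜ (I → Bool)) ∧
      ¬ ∃ φ : {f : K → ℝ // Continuous f} → {g : Y → ℝ // Continuous g},
        Continuous φ ∧ ∀ (f : {f : K → ℝ // Continuous f}) (x : K), (φ f).1 x.1 = f.1 x := by
  open Pool.Agent.H17.TE in
  refine ⟨I → unitInterval, inferInstance, inferInstance, Set.range vtx,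
    ⟨(vtx_emb (I := I)).isEmbedding.toHomeomorph.symm⟩, ?_⟩
  rintro ⟨φ, hφ, he⟩
  open Pool.Agent.H17.TE in
  let e := (vtx_emb (I := I)).isEmbedding.toHomeomorph
  refine Pool.Agent.H17.TE.no_ext hI
    (fun f => φ ⟨fun x => f.1 (e.symm x), f.2.comp e.symm.continuous⟩)
    (hφ.comp (Continuous.subtype_mk (continuous_pi fun x => Pool.Agent.H17.TE.ev _) _)) ?_
  intro f τ
  have := he ⟨fun x => f.1 (e.symm x), f.2.comp e.symm.continuous⟩ (e τ)
  simp only [Homeomorph.symm_apply_apply] at this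
  exact this

end Pool.Agent.Results.MP_4f6efa_gt.NotExtral
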